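import Pool.Agent.Helper38.Thick.Chain

/-!
# A long line: the assembly
-/

set_option autoImplicit false
set_option linter.unusedSectionVars false

namespace Pool.Agent.Helper74.LL

open Pool.Agent.Helper28.BPack Pool.Agent.Helper61.Motz Pool.Agent.Helper38.Thick

variable {L : Type} [Lattice L] [BoundedOrder L] [Finite L] [IsUpperModularLattice L]

/-- **Assembly.** `u` the long line, `e1, e2` on `u`, `m0 = b3 ⊔ b4` the longest skew line, `y z` the
point of `m0` used by `z` off `m0`, `col z false` (and `col z true` for `z` on `m0`) the colours. -/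
theorem crit4_of_colours {A : Finset L} (hA : ∀ a ∈ A, IsAtom a) {u e1 e2 b3 b4 : L}
    (hu : rk u = 2) (he1 : e1 ∈ A) (he2 : e2 ∈ A) (h1u : e1 ≤ u) (h2u : e2 ≤ u) (h12 : e1 ≠ e2)
    (hb3 : b3 ∈ A) (hb4 : b4 ∈ A) (h3u : ¬ b3 ≤ u) (h4u : ¬ b4 ≤ u ⊔ b3) (y : L → L)
    (hy : ∀ z ∈ A, ¬ z ≤ u → ¬ z ≤ b3 ⊔ b4 → y z ∈ A ∧ y z ≤ b3 ⊔ b4 ∧ ¬ y z ≤ u ⊔ z)
    (hyinj : ∀ z ∈ A, ¬ z ≤ u → ¬ z ≤ b3 ⊔ b4 → ∀ z' ∈ A, ¬ z' ≤ u → ¬ z' ≤ b3 ⊔ b4 →
      z ⊔ y z = z' ⊔ y z' → z = z')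
    (col : L → Bool → L)
    (hcol : ∀ z ∈ A, ¬ z ≤ u → z ≠ b3 → z ≠ b4 → ∀ b, (b = true → z ≤ b3 ⊔ b4) →
      col z b ∈ A ∧ col z b ≤ u ∧ ¬ b3 ≤ z ⊔ col z b ∧ ¬ b4 ≤ z ⊔ col z b ∧
      (¬ z ≤ b3 ⊔ b4 → ¬ col z b ≤ z ⊔ (b3 ⊔ b4)))
    (hrow : ∀ z ∈ A, ¬ z ≤ u → z ≠ b3 → z ≠ b4 → ∀ z' ∈ A, ¬ z' ≤ u → z' ≠ b3 → z' ≠ b4 →
      ∀ b b', (b = true → z ≤ b3 ⊔ b4) → (b' = true → z' ≤ b3 ⊔ b4) →
      z ⊔ col z b = z' ⊔ col z' b' → z = z' ∧ b = b')
    (hpl : ∀ z ∈ A, ¬ z ≤ u → ¬ z ≤ b3 ⊔ b4 → ∀ z' ∈ A, ¬ z' ≤ u → ¬ z' ≤ b3 ⊔ b4 →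
      z ⊔ y z ⊔ col z false = z' ⊔ y z' ⊔ col z' false → z = z') : Crit4 A := by
  classical
  have hn3 := hA b3 hb3
  have hn4 := hA b4 hb4
  have ha1 := hA e1 he1
  have ha2 := hA e2 he2
  have hee : e1 ⊔ e2 = u := line_of ha1 ha2 h12 h1u h2u hu
  have h34 : b3 ≠ b4 := by
    rintro rfl
    exact h4u le_sup_right
  have hm2 : rk (b3 ⊔ b4) = 2 := rk_line hn3 hn4 h34
  have hub3 : rk (u ⊔ b3) = 3 := by rw [rk_sup_atom hn3 h3u, hu]
  have hub4 : rk (u ⊔ b3 ⊔ b4) = 4 := by rw [rk_sup_atom hn4 h4u, hub3]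
  -- points of `u` on a line
  have huniq : ∀ z c c', IsAtom z → IsAtom c → IsAtom c' → ¬ z ≤ u → c ≤ u → c' ≤ u →
      c' ≤ z ⊔ c → c' = c := by
    intro z c c' hz hc hc' hzu hcu hc'u hle
    by_contra hne
    have h1 : c ⊔ c' = u := line_of hc hc' (Ne.symm hne) hcu hc'u hu
    have h2 : rk (z ⊔ c) = 2 := rk_line hz hc (fun e => hzu (e ▸ hcu))
    have h3 : c ⊔ c' = z ⊔ c := line_of hc hc' (Ne.symm hne) le_sup_right hle h2
    exact hzu (by rw [← h1, h3]; exact le_sup_left)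
  have hF4 : ∀ z, IsAtom z → ¬ z ≤ u → b3 ≤ u ⊔ z → b4 ≤ u ⊔ z → False := by
    intro z hz hzu h3 h4
    have e : u ⊔ b3 = u ⊔ z := eq_of_le_of_rk (sup_le le_sup_left h3)
      (by rw [rk_sup_atom hz hzu, hub3, hu])
    exact h4u (by rw [e]; exact h4)
  have hmu : ∀ z, IsAtom z → z ≤ b3 ⊔ b4 → ¬ z ≤ u := by
    intro z hz hzm hzu
    have hz3 : b3 ≠ z := by
      rintro rfl
      exact h3u hzu
    have e : b3 ⊔ z = b3 ⊔ b4 := line_of hn3 hz hz3 le_sup_left hzm hm2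
    have h5 : b4 ≤ b3 ⊔ z := by rw [e]; exact le_sup_right
    exact h4u (h5.trans (sup_le le_sup_right (hzu.trans le_sup_left)))
  -- points of `u`
  have hC4 : ∀ q, q ≤ u → ¬ b4 ≤ q ⊔ b3 := fun q hq h =>
    h4u (h.trans (sup_le (hq.trans le_sup_left) le_sup_right))
  have hC3 : ∀ q, IsAtom q → q ≤ u → rk (q ⊔ b3 ⊔ b4) = 3 := by
    intro q hq hqu
    rw [rk_sup_atom hn4 (hC4 q hqu), rk_line hq hn3 (fun e => h3u (e ▸ hqu))]
  have hCu : ∀ q, IsAtom q → q ≤ u → ¬ u ≤ q ⊔ b3 ⊔ b4 := by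
    intro q hq hqu h
    have h1 : u ⊔ b3 ⊔ b4 ≤ q ⊔ b3 ⊔ b4 :=
      sup_le (sup_le h (le_sup_right.trans le_sup_left)) le_sup_right
    have h2 := rk_mono h1
    rw [hub4, hC3 q hq hqu] at h2
    omega
  have hCq : ∀ q c', IsAtom q → IsAtom c' → q ≤ u → c' ≤ u → c' ≤ q ⊔ b3 ⊔ b4 → c' = q := by
    intro q c' hq hc' hqu hcu hle
    by_contra hne
    have h1 : q ⊔ c' = u := line_of hq hc' (Ne.symm hne) hqu hcu hu
    exact hCu q hq hqu (h1 ▸ sup_le (le_sup_left.trans le_sup_left) hle)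
  -- points off `u` and `m0`
  have hGu : ∀ z ∈ A, ¬ z ≤ u → ¬ z ≤ b3 ⊔ b4 → ∀ c', IsAtom c' → c' ≤ u →
      ¬ c' ≤ z ⊔ y z := by
    intro z hz hzu hzm c' hc' hcu hle
    obtain ⟨hyA, hym, hyu⟩ := hy z hz hzu hzm
    have hzy : z ≠ y z := fun e => hyu (e ▸ le_sup_right)
    have hzc : z ≠ c' := fun e => hzu (e ▸ hcu)
    have e : z ⊔ c' = z ⊔ y z := line_of (hA z hz) hc' hzc le_sup_left hle
      (rk_line (hA z hz) (hA _ hyA) hzy)
    have h5 : y z ≤ z ⊔ c' := by rw [e]; exact le_sup_right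
    exact hyu (h5.trans (sup_le le_sup_right (hcu.trans le_sup_left)))
  have hGm : ∀ z ∈ A, ¬ z ≤ u → ¬ z ≤ b3 ⊔ b4 → b3 ≤ z ⊔ y z → b4 ≤ z ⊔ y z → False := by
    intro z hz hzu hzm h3 h4
    obtain ⟨hyA, hym, hyu⟩ := hy z hz hzu hzm
    have hzy : z ≠ y z := fun e => hyu (e ▸ le_sup_right)
    have e : b3 ⊔ b4 = z ⊔ y z := line_of hn3 hn4 h34 h3 h4
      (rk_line (hA z hz) (hA _ hyA) hzy)
    exact hzm (by rw [e]; exact le_sup_left)
  have hzb : ∀ z, ¬ z ≤ b3 ⊔ b4 → z ≠ b3 ∧ z ≠ b4 := fun z hzm =>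
    ⟨fun e => hzm (e ▸ le_sup_left), fun e => hzm (e ▸ le_sup_right)⟩
  have hG3 : ∀ z ∈ A, ¬ z ≤ u → ¬ z ≤ b3 ⊔ b4 → rk (z ⊔ y z ⊔ col z false) = 3 := by
    intro z hz hzu hzm
    obtain ⟨hyA, hym, hyu⟩ := hy z hz hzu hzm
    have hzy : z ≠ y z := fun e => hyu (e ▸ le_sup_right)
    obtain ⟨hc1, hc2, -⟩ := hcol z hz hzu (hzb z hzm).1 (hzb z hzm).2 false (fun h => by simp at h)
    rw [rk_sup_atom (hA _ hc1) (hGu z hz hzu hzm _ (hA _ hc1) hc2),
      rk_line (hA z hz) (hA _ hyA) hzy]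
  have hGHu : ∀ z ∈ A, ¬ z ≤ u → ¬ z ≤ b3 ⊔ b4 → ¬ u ≤ z ⊔ y z ⊔ col z false := by
    intro z hz hzu hzm h
    obtain ⟨hyA, hym, hyu⟩ := hy z hz hzu hzm
    have e : u ⊔ z = z ⊔ y z ⊔ col z false := eq_of_le_of_rk
      (sup_le h (le_sup_left.trans le_sup_left)) (by
        rw [hG3 z hz hzu hzm, rk_sup_atom (hA z hz) hzu, hu])
    exact hyu (by rw [e]; exact le_sup_right.trans le_sup_left)
  have hGHm : ∀ z ∈ A, ¬ z ≤ u → ¬ z ≤ b3 ⊔ b4 → b3 ≤ z ⊔ y z ⊔ col z false →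
      b4 ≤ z ⊔ y z ⊔ col z false → False := by
    intro z hz hzu hzm h3 h4
    obtain ⟨hc1, hc2, -, -, hc5⟩ := hcol z hz hzu (hzb z hzm).1 (hzb z hzm).2 false
      (fun h => by simp at h)
    have e : z ⊔ (b3 ⊔ b4) = z ⊔ y z ⊔ col z false := eq_of_le_of_rk
      (sup_le (le_sup_left.trans le_sup_left) (sup_le h3 h4)) (by
        rw [hG3 z hz hzu hzm, sup_comm, rk_sup_atom (hA z hz) hzm, hm2])
    exact hc5 hzm (by rw [e]; exact le_sup_right)
  -- points of `m0`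
  have hM : ∀ z ∈ A, ¬ z ≤ u → z ≤ b3 ⊔ b4 → z ≠ b3 → z ≠ b4 →
      col z false ≠ col z true := by
    intro z hz hzu hzm h3 h4 e
    have h := hrow z hz hzu h3 h4 z hz hzu h3 h4 false true (fun h => by simp at h)
      (fun _ => hzm) (by rw [e])
    simp at h
  have hMu : ∀ z ∈ A, ¬ z ≤ u → z ≤ b3 ⊔ b4 → z ≠ b3 → z ≠ b4 →
      z ⊔ col z false ⊔ col z true = u ⊔ z := by
    intro z hz hzu hzm h3 h4
    obtain ⟨hc1, hc2, -⟩ := hcol z hz hzu h3 h4 false (fun h => by simp at h)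
    obtain ⟨hd1, hd2, -⟩ := hcol z hz hzu h3 h4 true (fun _ => hzm)
    have e : col z false ⊔ col z true = u :=
      line_of (hA _ hc1) (hA _ hd1) (hM z hz hzu hzm h3 h4) hc2 hd2 hu
    rw [sup_assoc, e, sup_comm]
  have hMm : ∀ z ∈ A, z ≤ b3 ⊔ b4 → ∀ w, IsAtom w → w ≤ b3 ⊔ b4 → w ≠ z → ¬ w ≤ u ⊔ z := by
    intro z hz hzm w hw hwm hne hle
    have e : w ⊔ z = b3 ⊔ b4 := line_of hw (hA z hz) hne hwm hzm hm2
    have h5 : b3 ⊔ b4 ≤ u ⊔ z := e ▸ sup_le hle le_sup_right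
    exact hF4 z (hA z hz) (hmu z (hA z hz) hzm) (le_sup_left.trans h5) (le_sup_right.trans h5)
  -- the data
  obtain ⟨c, hc⟩ : ∃ c : L → L, ∀ q, c q = if q ≤ u then b3 else if q ≤ b3 ⊔ b4 then col q false
      else y q := ⟨_, fun _ => rfl⟩
  obtain ⟨d, hd⟩ : ∃ d : L → L, ∀ q, d q = if q ≤ u then b4 else if q ≤ b3 ⊔ b4 then col q true
      else col q false := ⟨_, fun _ => rfl⟩
  have hcase : ∀ q, (∀ i, q ≠ (![e1, e2, b3, b4] : Fin 4 → L) i) →
      (q ≤ u ∧ q ≠ e1 ∧ q ≠ e2 ∧ c q = b3 ∧ d q = b4) ∨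
      (¬ q ≤ u ∧ q ≤ b3 ⊔ b4 ∧ q ≠ b3 ∧ q ≠ b4 ∧ c q = col q false ∧ d q = col q true) ∨
      (¬ q ≤ u ∧ ¬ q ≤ b3 ⊔ b4 ∧ q ≠ b3 ∧ q ≠ b4 ∧ c q = y q ∧ d q = col q false) := by
    intro q hq
    have h0 : q ≠ e1 := hq 0
    have h1 : q ≠ e2 := hq 1
    have h2 : q ≠ b3 := hq 2
    have h3 : q ≠ b4 := hq 3
    rw [hc, hd]
    by_cases hqu : q ≤ u
    · left
      simp only [hqu, if_true]
      exact ⟨trivial, h0, h1, trivial, trivial⟩
    · right
      by_cases hqm : q ≤ b3 ⊔ b4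
      · left
        simp only [hqu, hqm, if_true, if_false]
        exact ⟨not_false, trivial, h2, h3, trivial, trivial⟩
      · right
        simp only [hqu, hqm, if_false]
        exact ⟨not_false, not_false, h2, h3, trivial, trivial⟩
  have two : ∀ l : L, (e1 ≤ l → e2 ≤ l → False) → (e1 ≤ l → b3 ≤ l → False) →
      (e1 ≤ l → b4 ≤ l → False) → (e2 ≤ l → b3 ≤ l → False) → (e2 ≤ l → b4 ≤ l → False) →
      (b3 ≤ l → b4 ≤ l → False) → ∀ i j : Fin 4, i ≠ j →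
      l ≠ (![e1, e2, b3, b4] : Fin 4 → L) i ⊔ (![e1, e2, b3, b4] : Fin 4 → L) j := by
    intro l k1 k2 k3 k4 k5 k6 i j hij e
    have hi : (![e1, e2, b3, b4] : Fin 4 → L) i ≤ l := by rw [e]; exact le_sup_left
    have hj : (![e1, e2, b3, b4] : Fin 4 → L) j ≤ l := by rw [e]; exact le_sup_right
    clear e
    fin_cases i <;> fin_cases j
    · exact hij rfl
    · exact k1 hi hj
    · exact k2 hi hj
    · exact k3 hi hj
    · exact k1 hj hi
    · exact hij rfl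
    · exact k4 hi hj
    · exact k5 hi hj
    · exact k2 hj hi
    · exact k4 hj hi
    · exact hij rfl
    · exact k6 hi hj
    · exact k3 hj hi
    · exact k5 hj hi
    · exact k6 hj hi
    · exact hij rfl
  have three : ∀ l : L, (e1 ≤ l → e2 ≤ l → b3 ≤ l → False) → (e1 ≤ l → e2 ≤ l → b4 ≤ l → False) →
      (e1 ≤ l → b3 ≤ l → b4 ≤ l → False) → (e2 ≤ l → b3 ≤ l → b4 ≤ l → False) →
      ∀ i j k : Fin 4, i ≠ j → i ≠ k → j ≠ k →
      l ≠ (![e1, e2, b3, b4] : Fin 4 → L) i ⊔ (![e1, e2, b3, b4] : Fin 4 → L) j ⊔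
        (![e1, e2, b3, b4] : Fin 4 → L) k := by
    intro l k1 k2 k3 k4 i j k hij hik hjk e
    have hi : (![e1, e2, b3, b4] : Fin 4 → L) i ≤ l := by
      rw [e]; exact le_sup_left.trans le_sup_left
    have hj : (![e1, e2, b3, b4] : Fin 4 → L) j ≤ l := by
      rw [e]; exact le_sup_right.trans le_sup_left
    have hk : (![e1, e2, b3, b4] : Fin 4 → L) k ≤ l := by rw [e]; exact le_sup_right
    clear e
    fin_cases i <;> fin_cases j <;> fin_cases k <;>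
      first
      | exact hij rfl
      | exact hik rfl
      | exact hjk rfl
      | exact k1 hi hj hk
      | exact k1 hi hk hj
      | exact k1 hj hi hk
      | exact k1 hk hi hj
      | exact k1 hj hk hi
      | exact k1 hk hj hi
      | exact k2 hi hj hk
      | exact k2 hi hk hj
      | exact k2 hj hi hk
      | exact k2 hk hi hj
      | exact k2 hj hk hi
      | exact k2 hk hj hi
      | exact k3 hi hj hk
      | exact k3 hi hk hj
      | exact k3 hj hi hk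
      | exact k3 hk hi hj
      | exact k3 hj hk hi
      | exact k3 hk hj hi
      | exact k4 hi hj hk
      | exact k4 hi hk hj
      | exact k4 hj hi hk
      | exact k4 hk hi hj
      | exact k4 hj hk hi
      | exact k4 hk hj hi
  -- rows are no lines of the basis
  have hrowb : ∀ z ∈ A, ¬ z ≤ u → z ≠ b3 → z ≠ b4 → ∀ b, (b = true → z ≤ b3 ⊔ b4) →
      ∀ i j : Fin 4, i ≠ j →
      z ⊔ col z b ≠ (![e1, e2, b3, b4] : Fin 4 → L) i ⊔ (![e1, e2, b3, b4] : Fin 4 → L) j := by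
    intro z hz hzu h3 h4 b hb
    obtain ⟨c1, c2, c3, c4, -⟩ := hcol z hz hzu h3 h4 b hb
    apply two
    · intro k1 k2
      exact h12 ((huniq z _ e1 (hA z hz) (hA _ c1) ha1 hzu c2 h1u k1).trans
        (huniq z _ e2 (hA z hz) (hA _ c1) ha2 hzu c2 h2u k2).symm)
    · exact fun _ k => c3 k
    · exact fun _ k => c4 k
    · exact fun _ k => c3 k
    · exact fun _ k => c4 k
    · exact fun k _ => c3 k
  refine ⟨![e1, e2, b3, b4], c, d, ?_, ?_, ?_, ?_, ?_, ?_, ?_, ?_, ?_, ?_⟩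
  · intro i
    fin_cases i
    exacts [he1, he2, hb3, hb4]
  · have h1 : (Finset.univ : Finset (Fin 4)) = insert 0 (insert 1 (insert 2 {3})) := by decide
    rw [h1, Finset.sup_insert, Finset.sup_insert, Finset.sup_insert, Finset.sup_singleton]
    change rk (e1 ⊔ (e2 ⊔ (b3 ⊔ b4))) = 4
    rw [← sup_assoc, hee, ← sup_assoc, hub4]
  · intro q hq hne
    rcases hcase q hne with ⟨h1, h2, h3, h4, h5⟩ | ⟨h1, h2, h3, h4, h5, h6⟩ |
      ⟨h1, h2, h3, h4, h5, h6⟩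
    · rw [h4, h5]
      exact ⟨hb3, hb4, hC3 q (hA q hq) h1⟩
    · rw [h5, h6]
      obtain ⟨c1, c2, -⟩ := hcol q hq h1 h3 h4 false (fun h => by simp at h)
      obtain ⟨d1, d2, -⟩ := hcol q hq h1 h3 h4 true (fun _ => h2)
      refine ⟨c1, d1, ?_⟩
      rw [hMu q hq h1 h2 h3 h4, rk_sup_atom (hA q hq) h1, hu]
    · rw [h5, h6]
      obtain ⟨c1, c2, -⟩ := hcol q hq h1 h3 h4 false (fun h => by simp at h)
      exact ⟨(hy q hq h1 h2).1, c1, hG3 q hq h1 h2⟩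
  · -- c-lines
    intro q hq hne q' hq' hne' e
    rcases hcase q hne with ⟨h1, h2, h3, h4, h5⟩ | ⟨h1, h2, h3, h4, h5, h6⟩ |
      ⟨h1, h2, h3, h4, h5, h6⟩ <;>
    rcases hcase q' hne' with ⟨k1, k2, k3, k4, k5⟩ | ⟨k1, k2, k3, k4, k5, k6⟩ |
      ⟨k1, k2, k3, k4, k5, k6⟩
    · rw [h4, k4] at e
      exact huniq b3 q' q hn3 (hA q' hq') (hA q hq) h3u k1 h1
        (by rw [sup_comm, ← e]; exact le_sup_left)
    · rw [h4, k5] at e
      obtain ⟨-, -, c3, -, -⟩ := hcol q' hq' k1 k3 k4 false (fun h => by simp at h)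
      exact absurd (by rw [← e]; exact le_sup_right) c3
    · rw [h4, k5] at e
      exact absurd (by rw [← e]; exact le_sup_left) (hGu q' hq' k1 k2 q (hA q hq) h1)
    · rw [h5, k4] at e
      obtain ⟨-, -, c3, -, -⟩ := hcol q hq h1 h3 h4 false (fun h => by simp at h)
      exact absurd (by rw [e]; exact le_sup_right) c3
    · rw [h5, k5] at e
      exact (hrow q hq h1 h3 h4 q' hq' k1 k3 k4 false false (fun h => by simp at h)
        (fun h => by simp at h) e).1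
    · rw [h5, k5] at e
      obtain ⟨c1, c2, -⟩ := hcol q hq h1 h3 h4 false (fun h => by simp at h)
      exact absurd (by rw [← e]; exact le_sup_right) (hGu q' hq' k1 k2 _ (hA _ c1) c2)
    · rw [h5, k4] at e
      exact absurd (by rw [e]; exact le_sup_left) (hGu q hq h1 h2 q' (hA q' hq') k1)
    · rw [h5, k5] at e
      obtain ⟨c1, c2, -⟩ := hcol q' hq' k1 k3 k4 false (fun h => by simp at h)
      exact absurd (by rw [e]; exact le_sup_right) (hGu q hq h1 h2 _ (hA _ c1) c2)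
    · rw [h5, k5] at e
      exact hyinj q hq h1 h2 q' hq' k1 k2 e
  · -- d-lines
    intro q hq hne q' hq' hne' e
    rcases hcase q hne with ⟨h1, h2, h3, h4, h5⟩ | ⟨h1, h2, h3, h4, h5, h6⟩ |
      ⟨h1, h2, h3, h4, h5, h6⟩ <;>
    rcases hcase q' hne' with ⟨k1, k2, k3, k4, k5⟩ | ⟨k1, k2, k3, k4, k5, k6⟩ |
      ⟨k1, k2, k3, k4, k5, k6⟩
    · rw [h5, k5] at e
      exact huniq b4 q' q hn4 (hA q' hq') (hA q hq) (fun h => h4u (h.trans le_sup_left)) k1 h1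
        (by rw [sup_comm, ← e]; exact le_sup_left)
    · rw [h5, k6] at e
      obtain ⟨-, -, -, c4, -⟩ := hcol q' hq' k1 k3 k4 true (fun _ => k2)
      exact absurd (by rw [← e]; exact le_sup_right) c4
    · rw [h5, k6] at e
      obtain ⟨-, -, -, c4, -⟩ := hcol q' hq' k1 k3 k4 false (fun h => by simp at h)
      exact absurd (by rw [← e]; exact le_sup_right) c4
    · rw [h6, k5] at e
      obtain ⟨-, -, -, c4, -⟩ := hcol q hq h1 h3 h4 true (fun _ => h2)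
      exact absurd (by rw [e]; exact le_sup_right) c4
    · rw [h6, k6] at e
      exact (hrow q hq h1 h3 h4 q' hq' k1 k3 k4 true true (fun _ => h2) (fun _ => k2) e).1
    · rw [h6, k6] at e
      exact (hrow q hq h1 h3 h4 q' hq' k1 k3 k4 true false (fun _ => h2)
        (fun h => by simp at h) e).1
    · rw [h6, k5] at e
      obtain ⟨-, -, -, c4, -⟩ := hcol q hq h1 h3 h4 false (fun h => by simp at h)
      exact absurd (by rw [e]; exact le_sup_right) c4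
    · rw [h6, k6] at e
      exact (hrow q hq h1 h3 h4 q' hq' k1 k3 k4 false true (fun h => by simp at h)
        (fun _ => k2) e).1
    · rw [h6, k6] at e
      exact (hrow q hq h1 h3 h4 q' hq' k1 k3 k4 false false (fun h => by simp at h)
        (fun h => by simp at h) e).1
  · -- c-lines and d-lines
    intro q hq hne q' hq' hne' e
    rcases hcase q hne with ⟨h1, h2, h3, h4, h5⟩ | ⟨h1, h2, h3, h4, h5, h6⟩ |
      ⟨h1, h2, h3, h4, h5, h6⟩ <;>
    rcases hcase q' hne' with ⟨k1, k2, k3, k4, k5⟩ | ⟨k1, k2, k3, k4, k5, k6⟩ |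
      ⟨k1, k2, k3, k4, k5, k6⟩
    · rw [h4, k5] at e
      exact hC4 q h1 (by rw [e]; exact le_sup_right)
    · rw [h4, k6] at e
      obtain ⟨-, -, c3, -, -⟩ := hcol q' hq' k1 k3 k4 true (fun _ => k2)
      exact c3 (by rw [← e]; exact le_sup_right)
    · rw [h4, k6] at e
      obtain ⟨-, -, c3, -, -⟩ := hcol q' hq' k1 k3 k4 false (fun h => by simp at h)
      exact c3 (by rw [← e]; exact le_sup_right)
    · rw [h5, k5] at e
      obtain ⟨-, -, -, c4, -⟩ := hcol q hq h1 h3 h4 false (fun h => by simp at h)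
      exact c4 (by rw [e]; exact le_sup_right)
    · rw [h5, k6] at e
      have h := (hrow q hq h1 h3 h4 q' hq' k1 k3 k4 false true (fun h => by simp at h)
        (fun _ => k2) e).2
      simp at h
    · rw [h5, k6] at e
      have h := (hrow q hq h1 h3 h4 q' hq' k1 k3 k4 false false (fun h => by simp at h)
        (fun h => by simp at h) e).1
      exact k2 (h ▸ h2)
    · rw [h5, k5] at e
      exact hGu q hq h1 h2 q' (hA q' hq') k1 (by rw [e]; exact le_sup_left)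
    · rw [h5, k6] at e
      obtain ⟨c1, c2, -⟩ := hcol q' hq' k1 k3 k4 true (fun _ => k2)
      exact hGu q hq h1 h2 _ (hA _ c1) c2 (by rw [e]; exact le_sup_right)
    · rw [h5, k6] at e
      obtain ⟨c1, c2, -⟩ := hcol q' hq' k1 k3 k4 false (fun h => by simp at h)
      exact hGu q hq h1 h2 _ (hA _ c1) c2 (by rw [e]; exact le_sup_right)
  · -- c-lines and the basis
    intro q hq hne
    rcases hcase q hne with ⟨h1, h2, h3, h4, h5⟩ | ⟨h1, h2, h3, h4, h5, h6⟩ |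
      ⟨h1, h2, h3, h4, h5, h6⟩
    · rw [h4]
      have k1 : e1 ≤ q ⊔ b3 → False := fun h => h2 (huniq b3 q e1 hn3 (hA q hq) ha1 h3u h1 h1u
        (by rw [sup_comm]; exact h)).symm
      have k2 : e2 ≤ q ⊔ b3 → False := fun h => h3 (huniq b3 q e2 hn3 (hA q hq) ha2 h3u h1 h2u
        (by rw [sup_comm]; exact h)).symm
      have k4 := hC4 q h1
      exact two _ (fun h _ => k1 h) (fun h _ => k1 h) (fun h _ => k1 h) (fun h _ => k2 h)
        (fun h _ => k2 h) (fun _ h => k4 h)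
    · rw [h5]
      exact hrowb q hq h1 h3 h4 false (fun h => by simp at h)
    · rw [h5]
      have k1 := hGu q hq h1 h2 e1 ha1 h1u
      have k2 := hGu q hq h1 h2 e2 ha2 h2u
      exact two _ (fun h _ => k1 h) (fun h _ => k1 h) (fun h _ => k1 h) (fun h _ => k2 h)
        (fun h _ => k2 h) (hGm q hq h1 h2)
  · -- d-lines and the basis
    intro q hq hne
    rcases hcase q hne with ⟨h1, h2, h3, h4, h5⟩ | ⟨h1, h2, h3, h4, h5, h6⟩ |
      ⟨h1, h2, h3, h4, h5, h6⟩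
    · rw [h5]
      have hb4u : ¬ b4 ≤ u := fun h => h4u (h.trans le_sup_left)
      have k1 : e1 ≤ q ⊔ b4 → False := fun h => h2 (huniq b4 q e1 hn4 (hA q hq) ha1 hb4u h1 h1u
        (by rw [sup_comm]; exact h)).symm
      have k2 : e2 ≤ q ⊔ b4 → False := fun h => h3 (huniq b4 q e2 hn4 (hA q hq) ha2 hb4u h1 h2u
        (by rw [sup_comm]; exact h)).symm
      have k3 : b3 ≤ q ⊔ b4 → False := by
        intro h
        have e : b3 ⊔ b4 = q ⊔ b4 := line_of hn3 hn4 h34 h le_sup_right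
          (rk_line (hA q hq) hn4 (fun e => hb4u (e ▸ h1)))
        exact hmu q (hA q hq) (by rw [e]; exact le_sup_left) h1
      exact two _ (fun h _ => k1 h) (fun h _ => k1 h) (fun h _ => k1 h) (fun h _ => k2 h)
        (fun h _ => k2 h) (fun h _ => k3 h)
    · rw [h6]
      exact hrowb q hq h1 h3 h4 true (fun _ => h2)
    · rw [h6]
      exact hrowb q hq h1 h3 h4 false (fun h => by simp at h)
  · -- planes
    intro q hq hne q' hq' hne' e
    rcases hcase q hne with ⟨h1, h2, h3, h4, h5⟩ | ⟨h1, h2, h3, h4, h5, h6⟩ |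
      ⟨h1, h2, h3, h4, h5, h6⟩ <;>
    rcases hcase q' hne' with ⟨k1, k2, k3, k4, k5⟩ | ⟨k1, k2, k3, k4, k5, k6⟩ |
      ⟨k1, k2, k3, k4, k5, k6⟩
    · rw [h4, h5, k4, k5] at e
      exact hCq q' q (hA q' hq') (hA q hq) k1 h1 (by rw [← e]; exact le_sup_left.trans le_sup_left)
    · rw [h4, h5, k5, k6, hMu q' hq' k1 k2 k3 k4] at e
      exact absurd (by rw [e]; exact le_sup_left) (hCu q (hA q hq) h1)
    · rw [h4, h5, k5, k6] at e
      exact (hGHm q' hq' k1 k2 (by rw [← e]; exact le_sup_right.trans le_sup_left)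
        (by rw [← e]; exact le_sup_right)).elim
    · rw [h5, h6, k4, k5, hMu q hq h1 h2 h3 h4] at e
      exact absurd (by rw [← e]; exact le_sup_left) (hCu q' (hA q' hq') k1)
    · rw [h5, h6, k5, k6, hMu q hq h1 h2 h3 h4, hMu q' hq' k1 k2 k3 k4] at e
      by_contra hne2
      exact hMm q' hq' k2 q (hA q hq) h2 hne2 (by rw [← e]; exact le_sup_right)
    · rw [h5, h6, k5, k6, hMu q hq h1 h2 h3 h4] at e
      exact absurd (by rw [← e]; exact le_sup_left) (hGHu q' hq' k1 k2)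
    · rw [h5, h6, k4, k5] at e
      exact (hGHm q hq h1 h2 (by rw [e]; exact le_sup_right.trans le_sup_left)
        (by rw [e]; exact le_sup_right)).elim
    · rw [h5, h6, k5, k6, hMu q' hq' k1 k2 k3 k4] at e
      exact absurd (by rw [e]; exact le_sup_left) (hGHu q hq h1 h2)
    · rw [h5, h6, k5, k6] at e
      exact hpl q hq h1 h2 q' hq' k1 k2 e
  · -- planes and the basis
    intro q hq hne
    rcases hcase q hne with ⟨h1, h2, h3, h4, h5⟩ | ⟨h1, h2, h3, h4, h5, h6⟩ |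
      ⟨h1, h2, h3, h4, h5, h6⟩
    · rw [h4, h5]
      have k1 : e1 ≤ q ⊔ b3 ⊔ b4 → False := fun h =>
        h2 (hCq q e1 (hA q hq) ha1 h1 h1u h).symm
      have k2 : e2 ≤ q ⊔ b3 ⊔ b4 → False := fun h =>
        h3 (hCq q e2 (hA q hq) ha2 h1 h2u h).symm
      exact three _ (fun h _ _ => k1 h) (fun h _ _ => k1 h) (fun h _ _ => k1 h)
        (fun h _ _ => k2 h)
    · rw [h5, h6, hMu q hq h1 h2 h3 h4]
      have k3 := hMm q hq h2 b3 hn3 le_sup_left (Ne.symm h3)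
      have k4 := hMm q hq h2 b4 hn4 le_sup_right (Ne.symm h4)
      exact three _ (fun _ _ h => k3 h) (fun _ _ h => k4 h) (fun _ h _ => k3 h)
        (fun _ h _ => k3 h)
    · rw [h5, h6]
      have k1 : e1 ≤ q ⊔ y q ⊔ col q false → e2 ≤ q ⊔ y q ⊔ col q false → False := by
        intro h h'
        exact hGHu q hq h1 h2 (hee ▸ sup_le h h')
      have k2 := hGHm q hq h1 h2
      exact three _ (fun h h' _ => k1 h h') (fun h h' _ => k1 h h') (fun _ h h' => k2 h h')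
        (fun _ h h' => k2 h h')

end Pool.Agent.Helper74.LL
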